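import Pool.Agent.Y58.HT.Stm

/-!
Project HT (MP_57df8f_al): HT-BC+TR, base change to the algebraic closure and transfer along
isomorphisms.
-/

set_option autoImplicit false

universe u

namespace Pool.Agent.Y401.HT

open Matrix H361P Pool.Agent.Y58.HT
open scoped MatrixGroups LinearAlgebra.Projectivization

/-- HT-BC -/
theorem t_bc : S_BC.{u} := by
  intro F _
  refine ⟨ProjGenLinGroup.map (algebraMap F (AlgebraicClosure F)), ?_⟩
  rw [injective_iff_map_eq_one]
  intro g hg
  induction g using ProjGenLinGroup.induction_on with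
  | mk g =>
    rw [ProjGenLinGroup.map_mk] at hg
    obtain ⟨h1, h2, h3⟩ := entries_of_mk_eq_one _ hg
    have hinj := (algebraMap F (AlgebraicClosure F)).injective
    apply mk_eq_one_of_entries
    · apply hinj
      simpa using h1
    · apply hinj
      simpa using h2
    · apply hinj
      simpa using h3

lemma tr_locFinite {G H : Type u} [Group G] [Group H] (e : G ≃* H) (h : LocFinite G) :
    LocFinite H := by
  intro S hS
  have h1 := h (e.symm '' S) (hS.image _)
  have h2 : (Subgroup.closure (e.symm '' S)).map e.toMonoidHom = Subgroup.closure S := by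
    rw [MonoidHom.map_closure, ← Set.image_comp]
    congr 1
    ext x
    simp
  rw [← h2]
  exact Finite.of_equiv _
    ((Subgroup.closure (e.symm '' S)).equivMapOfInjective e.toMonoidHom e.injective).toEquiv

lemma tr_virtSolvable {G H : Type u} [Group G] [Group H] (e : G ≃* H) (h : VirtSolvable G) :
    VirtSolvable H := by
  obtain ⟨N, hN, hs⟩ := h
  refine ⟨N.map e.toMonoidHom, ⟨?_⟩, ?_⟩
  · have h1 : (N.map e.toMonoidHom).index = N.index := Subgroup.index_map_equiv N e
    rw [h1]
    exact hN.1
  · have h1 : Group.IsSolvable N := hs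
    have h2 : Group.IsSolvable (N.map e.toMonoidHom) := Group.isSolvable_of_surjective
      (f := (N.equivMapOfInjective e.toMonoidHom e.injective).toMonoidHom)
      (N.equivMapOfInjective e.toMonoidHom e.injective).surjective
    exact h2

lemma tr_ht {G H : Type u} [Group G] [Group H] (e : G ≃* H) (h : IsHighlyTransitiveGroup G) :
    IsHighlyTransitiveGroup H := by
  obtain ⟨Ω, act, hf, hinf, hk⟩ := h
  let actH : MulAction H Ω := MulAction.compHom Ω e.symm.toMonoidHom
  have hact : ∀ (x : H) (a : Ω), x • a = e.symm x • a := fun _ _ => rfl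
  refine ⟨Ω, actH, ⟨?_⟩, hinf, ?_⟩
  · intro x y hxy
    apply e.symm.injective
    exact hf.eq_of_smul_eq_smul fun a => hxy a
  · intro k hk1
    obtain ⟨h1, h2⟩ := hk k hk1
    refine ⟨h1, fun a b ha hb => ?_⟩
    obtain ⟨g, hg⟩ := h2 a b ha hb
    refine ⟨e g, fun i => ?_⟩
    rw [hact, e.symm_apply_apply]
    exact hg i

/-- HT-TR -/
theorem t_tr : S_TR.{u} := fun {_ _} _ _ e => ⟨tr_locFinite e, tr_virtSolvable e, tr_ht e⟩

end Pool.Agent.Y401.HT

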